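import Pool.Agent.H404Z.ULC.Main

namespace Pool.Agent.Results.MP_294a04_nt.ABadPairs

open Pool.Agent.H404Z.ULC

/-- For every badly approximable `ξ` there is a badly approximable `ζ` with `D(ξ, ζ) > 0`. -/
theorem result (ξ : ℝ) (hξ : Bad ξ) : ∃ ζ : ℝ, Bad ζ ∧ 0 < D ξ ζ := main ξ hξ

/-- The existence statement asked for in Q1 and Q2, from `result` at the square root of two. -/
theorem exists_pair : ∃ ξ ζ : ℝ, Bad ξ ∧ Bad ζ ∧ 0 < D ξ ζ :=
  let ⟨ζ, h⟩ := result _ bad_sqrt_two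
  ⟨_, ζ, bad_sqrt_two, h⟩

end Pool.Agent.Results.MP_294a04_nt.ABadPairs
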